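import Pool.Agent.Q182.LQ.Rec2

/-! # Project LQ (helper283), job REC: quadratic reciprocity over a number field -/

set_option autoImplicit false

namespace Pool.Agent.Q182.LQ

open Polynomial NumberField IsDedekindDomain Finset Pool.Agent.Q283.LQ Pool.Agent.Q51.EB Pool.Agent.Q51.EL
open Pool.Agent.Q239.EL
open Pool.Agent.Q187.EB (hs_comm)

lemma cor_comm {K : Type} [Field K] (P a b : K[X]) : cor P a b = cor P b a := by
  unfold cor
  rw [mul_comm b a, hs_comm (Algebra.norm K (AdjoinRoot.mk P b))]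
  ac_rfl

section

variable {F : Type} [Field F] [NumberField F]

lemma par_od {v : HeightOneSpectrum (𝓞 F)} {x : F} : Par v x 1 ↔ Od v x := by
  constructor
  · rintro ⟨k, hk⟩
    exact ⟨k, by rw [hk]; congr 1; ring⟩
  · rintro ⟨k, hk⟩
    exact ⟨k, by rw [hk]; congr 1; ring⟩

lemma od_fin {b : F} (hb : b ≠ 0) : {v : HeightOneSpectrum (𝓞 F) | Od v b}.Finite := by
  obtain ⟨a, y, hy, hay⟩ := exists_ratio b
  have hyL := coe_ne hy
  have ha : a ≠ 0 := by
    rintro rfl
    exact mul_ne_zero hb hyL (by simpa using hay)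
  have h1 := Ideal.finite_factors (R := 𝓞 F) (I := Ideal.span {a * y}) (span_ne (mul_ne_zero ha hy))
  refine h1.subset ?_
  rintro v ⟨n, hn⟩
  change v.asIdeal ∣ Ideal.span {a * y}
  rw [Ideal.dvd_iff_le, Ideal.span_singleton_le_iff_mem]
  by_contra hmem
  have ha1 : a ∉ v.asIdeal := fun h => hmem (Ideal.mul_mem_right _ _ h)
  have hy1 : y ∉ v.asIdeal := fun h => hmem (Ideal.mul_mem_left _ _ h)
  have e1 : v.valuation F (a : F) = 1 :=
    (HeightOneSpectrum.valuation_eq_one_iff_notMem (K := F) (v := v)).mpr ha1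
  have e2 : v.valuation F (y : F) = 1 :=
    (HeightOneSpectrum.valuation_eq_one_iff_notMem (K := F) (v := v)).mpr hy1
  rw [← hay, map_mul, e2, mul_one, hn, ← WithZero.exp_zero, WithZero.exp_inj] at e1
  omega

/-- squares modulo `v` and in the completion -/
lemma sg_lsq (hbas : S_BAS) {l : ℕ} (hl : l.Prime) (hl2 : l ≠ 2) {v : HeightOneSpectrum (𝓞 F)}
    (hv : Abv v l) {c : F} (hc : v.valuation F c = 1) : (sg v c = 1 ↔ Lsq v c) := by
  obtain ⟨-, -, -, -, h5, -⟩ := hbas F v
  have h2 : v.valuation F (2 : F) = 1 := by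
    have h3 : ¬ Abv v 2 := by
      intro h
      exact hl2 (prime_unique hl Nat.prime_two hv h)
    have := val_l_not h3
    simpa using this
  have h4 : v.valuation F (4 : F) = 1 := by
    have : (4 : F) = 2 * 2 := by norm_num
    rw [this, map_mul, h2, mul_one]
  have hsg : sg v c = 1 ↔ ∃ g : 𝓞 F, v.valuation F (c - (g : F) ^ 2) < 1 := by
    unfold sg
    split_ifs with h
    · exact ⟨fun _ => h, fun _ => rfl⟩
    · refine ⟨fun h6 => ?_, fun h6 => absurd h6 h⟩
      exact absurd h6 (by decide)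
  rw [hsg]
  constructor
  · rintro ⟨g, hg⟩
    have hg1 : v.valuation F ((g : F) ^ 2) = 1 := by
      have h6 : v.valuation F (c - (c - (g : F) ^ 2)) = v.valuation F c :=
        Valuation.map_sub_eq_of_lt_left _ (hg.trans_le hc.ge)
      rw [sub_sub_cancel, hc] at h6
      exact h6
    have hg0 : (g : F) ≠ 0 := by
      intro h6
      rw [h6] at hg1
      simp at hg1
    apply h5 c ((g : F)⁻¹)
    have h7 : c * ((g : F)⁻¹) ^ 2 - 1 = (c - (g : F) ^ 2) / (g : F) ^ 2 := by
      field_simp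
    rw [h7, map_div₀, hg1, div_one, h4]
    exact hg
  · intro h
    obtain ⟨x, hx⟩ := h 0
    rw [Nat.cast_zero, neg_zero, WithZero.exp_zero] at hx
    have h6 : v.valuation F (c * x ^ 2) = 1 := by
      have h7 : v.valuation F ((c * x ^ 2 - 1) + 1) = v.valuation F (1 : F) :=
        Valuation.map_add_eq_of_lt_right _ (hx.trans_le (map_one _).ge)
      rw [sub_add_cancel, map_one] at h7
      exact h7
    rw [map_mul, hc, one_mul, map_pow] at h6
    have hx0 : x ≠ 0 := by
      rintro rfl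
      simp at h6
    have hx1 : v.valuation F x = 1 := by
      rcases lt_trichotomy (v.valuation F x) 1 with h8 | h8 | h8
      · exact absurd h6 (pow_lt_one₀ zero_le h8 two_ne_zero).ne
      · exact h8
      · exact absurd h6 (one_lt_pow₀ h8 two_ne_zero).ne'
    have hxi : v.valuation F x⁻¹ = 1 := by rw [map_inv₀, hx1, inv_one]
    obtain ⟨g, hg⟩ := v.exists_valuation_sub_lt_of_integer (K := F) (x := x⁻¹) hxi.le 1
    rw [Units.val_one] at hg
    refine ⟨g, ?_⟩
    have h9 : c - (g : F) ^ 2 = (c * x ^ 2 - 1) / x ^ 2 +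
        (-(((g : F) - x⁻¹) * (((g : F) - x⁻¹) + 2 * x⁻¹))) := by
      field_simp
      ring
    rw [h9]
    apply Valuation.map_add_lt
    · rw [map_div₀, map_pow, hx1, one_pow, div_one]
      exact hx
    · rw [Valuation.map_neg, map_mul]
      have h10 : v.valuation F (((g : F) - x⁻¹) + 2 * x⁻¹) ≤ 1 := by
        apply Valuation.map_add_le _ hg.le
        rw [map_mul, h2, hxi, mul_one]
      exact mul_lt_one_of_lt_of_le hg h10

end

theorem t_REC (hbas : S_BAS) : S_REC := by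
  classical
  intro F _ _
  obtain ⟨f, θ, hset⟩ := setup_ex F
  obtain ⟨B, hB, htr⟩ := t_tr f F θ hset
  refine ⟨max B 2, fun y hy b c hb hc hunit hNn => ?_⟩
  obtain ⟨β, hβ⟩ := surj_up hset b
  obtain ⟨γ, hγ⟩ := surj_up hset c
  have hβ0 : aeval θ β ≠ 0 := by rw [hβ]; exact hb
  have hγ0 : aeval θ γ ≠ 0 := by rw [hγ]; exact hc
  have hbc := Pool.Agent.Q247.EB.bc
  have hdeg : 1 ≤ f.natDegree := by
    have h1 := hset.deg
    have h2 : 0 < Module.finrank ℚ F := Module.finrank_pos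
    omega
  obtain ⟨hfin, heven⟩ := t_pfc f hset.irr β γ ((zero_up hset β).mpr hβ0) ((zero_up hset γ).mpr hγ0)
  -- the local symbols
  obtain ⟨κ, hκ⟩ : ∃ κ : Nat.Primes → ℤˣ, κ = fun p : Nat.Primes => cor (up f ℚ_[(p : ℕ)])
    (β.map (Rat.castHom ℚ_[(p : ℕ)])) (γ.map (Rat.castHom ℚ_[(p : ℕ)])) := ⟨_, rfl⟩
  have hreal : cor (up f ℝ) (β.map (Rat.castHom ℝ)) (γ.map (Rat.castHom ℝ)) = 1 := by
    obtain ⟨d, hd, hdvd⟩ := sq_r hset hβ0 (by rw [hβ]; exact hNn.2.2)
    obtain ⟨-, -, -, hsep, hnd⟩ := hbc f hset.irr ℝ γ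
    exact cor_sq t_corp Pool.Agent.Q247.EB.bil.1 hsep (by rw [hnd]; exact hdeg)
      (cop_map ((zero_up hset γ).mpr hγ0)) hd hdvd
  have hsmall : ∀ p : Nat.Primes, (p : ℕ) ≤ y → κ p = 1 := by
    intro p hp
    obtain ⟨d, hd, hdvd⟩ := sq_l hset (p : ℕ) (β := β) (by
      intro v hv
      rw [hβ]
      exact hNn.2.1 v ⟨p, p.2, hp, hv⟩)
    obtain ⟨-, -, -, hsep, hnd⟩ := hbc f hset.irr ℚ_[(p : ℕ)] γ
    rw [hκ]
    exact cor_sq t_corp (Pool.Agent.Q247.EB.bil.2 (p : ℕ)) hsep (by rw [hnd]; exact hdeg)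
      (cop_map ((zero_up hset γ).mpr hγ0)) hd hdvd
  -- the set of the primes
  set Q : Set Nat.Primes := {p | κ p = -1} with hQ
  have hram : ramG f β γ = some '' Q := by
    ext v
    cases v with
    | none =>
      constructor
      · intro h
        have h1 : cor (up f ℝ) (β.map (Rat.castHom ℝ)) (γ.map (Rat.castHom ℝ)) = -1 := h
        rw [hreal] at h1
        exact absurd h1 (by decide)
      · rintro ⟨p, -, hp⟩
        exact absurd hp (by simp)
    | some p =>
      have h1 : some p ∈ ramG f β γ ↔ p ∈ Q := by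
        rw [hQ, hκ]
        exact Iff.rfl
      rw [h1]
      constructor
      · intro h; exact ⟨p, h, rfl⟩
      · rintro ⟨q, hq, hqp⟩
        rw [Option.some_inj] at hqp
        rw [← hqp]; exact hq
  have hQfin : Q.Finite := by
    rw [hram] at hfin
    exact Set.Finite.of_finite_image hfin (Option.some_injective _).injOn
  have hQev : Even hQfin.toFinset.card := by
    rw [hram, Set.ncard_image_of_injective _ (Option.some_injective _),
      Set.ncard_eq_toFinset_card _ hQfin] at heven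
    exact heven
  -- the finite sets
  have hA : {v : HeightOneSpectrum (𝓞 F) | ¬ Sm y v ∧ Od v b ∧ ¬ Lsq v c}.Finite :=
    (od_fin hb).subset fun v hv => hv.2.1
  have hC : {v : HeightOneSpectrum (𝓞 F) | ¬ Sm y v ∧ Od v c ∧ ¬ Lsq v b}.Finite :=
    (od_fin hc).subset fun v hv => hv.2.1
  have eA : Nat.card {v : HeightOneSpectrum (𝓞 F) // ¬ Sm y v ∧ Od v b ∧ ¬ Lsq v c} =
      hA.toFinset.card := by
    have := Set.ncard_eq_toFinset_card _ hA
    rw [← this]
    exact Nat.card_coe_set_eq _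
  have eC : Nat.card {v : HeightOneSpectrum (𝓞 F) // ¬ Sm y v ∧ Od v c ∧ ¬ Lsq v b} =
      hC.toFinset.card := by
    have := Set.ncard_eq_toFinset_card _ hC
    rw [← this]
    exact Nat.card_coe_set_eq _
  rw [eA, eC]
  set A := hA.toFinset with hAd
  set D := hC.toFinset with hDd
  have hAm : ∀ v, v ∈ A ↔ ¬ Sm y v ∧ Od v b ∧ ¬ Lsq v c := fun v => by
    rw [hAd, Set.Finite.mem_toFinset]; rfl
  have hDm : ∀ v, v ∈ D ↔ ¬ Sm y v ∧ Od v c ∧ ¬ Lsq v b := fun v => by
    rw [hDd, Set.Finite.mem_toFinset]; rfl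
  -- the prime below
  have hbel : ∀ v : HeightOneSpectrum (𝓞 F), ∃ p : Nat.Primes, Abv v (p : ℕ) := by
    intro v
    obtain ⟨p, -, hp, hpv, -⟩ := below v
    exact ⟨⟨p, hp⟩, hpv⟩
  choose P hP using hbel
  have hPu : ∀ (v : HeightOneSpectrum (𝓞 F)) (p : Nat.Primes), P v = p ↔ Abv v (p : ℕ) := by
    intro v p
    constructor
    · rintro rfl; exact hP v
    · intro h
      exact Subtype.ext (prime_unique (P v).2 p.2 (hP v) h)
  -- the symbols as products
  have key : ∀ (b' c' : F) (β' γ' : ℚ[X]), aeval θ β' = b' → aeval θ γ' = c' → b' ≠ 0 → c' ≠ 0 →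
      ∀ p : Nat.Primes, y < (p : ℕ) →
      (∀ v : HeightOneSpectrum (𝓞 F), ((p : ℕ) : 𝓞 F) ∈ v.asIdeal → v.valuation F c' = 1) →
      ∀ A' D' : Finset (HeightOneSpectrum (𝓞 F)), (∀ v, v ∈ A' ↔ ¬ Sm y v ∧ Od v b' ∧ ¬ Lsq v c') →
      (∀ v, v ∈ D' ↔ ¬ Sm y v ∧ Od v c' ∧ ¬ Lsq v b') →
      cor (up f ℚ_[(p : ℕ)]) (β'.map (Rat.castHom ℚ_[(p : ℕ)])) (γ'.map (Rat.castHom ℚ_[(p : ℕ)])) =
        (∏ v ∈ A'.filter (fun v => P v = p), (-1 : ℤˣ)) * ∏ v ∈ D'.filter (fun v => P v = p), (-1 : ℤˣ) := by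
    intro b' c' β' γ' hb' hc' hb0 hc0 p hp hu A' D' hA' hD'
    have hp2 : (p : ℕ) ≠ 2 := by have := le_max_right B 2; omega
    have hpB : ¬ (p : ℕ) ∣ B := by
      intro h
      have h1 := Nat.le_of_dvd (Nat.pos_of_ne_zero hB) h
      have := le_max_left B 2
      omega
    set V := (ab_finite (L := F) p.2.ne_zero).toFinset with hV
    have hVm : ∀ v, v ∈ V ↔ Abv v (p : ℕ) := fun v => (ab_finite p.2.ne_zero).mem_toFinset
    have h1 := tame hset (p : ℕ) hp2 (htr (p : ℕ) hpB) β' γ' (by rw [hb']; exact hb0)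
      (by rw [hc']; exact hc0) (fun v hv => by rw [hc']; exact hu v hv)
      (V.filter (fun v => Par v (aeval θ β') 1)) (fun v => by rw [mem_filter, hVm])
    rw [h1, hb', hc']
    have h2 : D'.filter (fun v => P v = p) = ∅ := by
      rw [Finset.filter_eq_empty_iff]
      intro v hv hPv
      obtain ⟨-, ⟨n, hn⟩, -⟩ := (hD' v).mp hv
      rw [hu v ((hPu v p).mp hPv), ← WithZero.exp_zero, WithZero.exp_inj] at hn
      omega
    rw [h2, Finset.prod_empty, mul_one]
    have h3 : A'.filter (fun v => P v = p) =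
        (V.filter (fun v => Par v b' 1)).filter (fun v => ¬ Lsq v c') := by
      ext v
      rw [mem_filter, mem_filter, mem_filter, hA', hVm, hPu, par_od]
      constructor
      · rintro ⟨⟨-, h4, h5⟩, h6⟩; exact ⟨⟨h6, h4⟩, h5⟩
      · rintro ⟨⟨h6, h4⟩, h5⟩
        refine ⟨⟨?_, h4, h5⟩, h6⟩
        rintro ⟨q, hq, hqy, hqv⟩
        have := prime_unique hq p.2 hqv h6
        omega
    rw [h3, Finset.prod_filter (p := fun v => ¬ Lsq v c')]
    apply Finset.prod_congr rfl
    intro v hv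
    have hvp : Abv v (p : ℕ) := (hVm v).mp (mem_filter.mp hv).1
    have h4 := sg_lsq hbas p.2 hp2 hvp (hu v hvp)
    by_cases h5 : Lsq v c'
    · rw [if_neg (not_not.mpr h5)]; exact h4.mpr h5
    · rw [if_pos h5]
      rcases Int.units_eq_one_or (sg v c') with h6 | h6
      · exact absurd (h4.mp h6) h5
      · exact h6
  have key2 : ∀ p : Nat.Primes, κ p =
      (∏ v ∈ A.filter (fun v => P v = p), (-1 : ℤˣ)) * ∏ v ∈ D.filter (fun v => P v = p), (-1 : ℤˣ) := by
    intro p
    by_cases hp : (p : ℕ) ≤ y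
    · have h1 : A.filter (fun v => P v = p) = ∅ := by
        rw [Finset.filter_eq_empty_iff]
        intro v hv hPv
        exact ((hAm v).mp hv).1 ⟨p, p.2, hp, (hPu v p).mp hPv⟩
      have h2 : D.filter (fun v => P v = p) = ∅ := by
        rw [Finset.filter_eq_empty_iff]
        intro v hv hPv
        exact ((hDm v).mp hv).1 ⟨p, p.2, hp, (hPu v p).mp hPv⟩
      rw [h1, h2, hsmall p hp]
      simp
    · push Not at hp
      rw [hκ]
      rcases hunit (p : ℕ) p.2 hp with h | h
      · have h1 := key c b γ β hγ hβ hc hb p hp h D A hDm hAm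
        change cor (up f ℚ_[(p : ℕ)]) (β.map (Rat.castHom ℚ_[(p : ℕ)])) (γ.map (Rat.castHom ℚ_[(p : ℕ)])) = _
        rw [cor_comm, h1, mul_comm]
      · exact key b c β γ hβ hγ hb hc p hp h A D hAm hDm
  -- the end
  set R : Finset Nat.Primes := hQfin.toFinset ∪ A.image P ∪ D.image P with hR
  have hRA : ∀ v ∈ A, P v ∈ R := fun v hv =>
    mem_union_left _ (mem_union_right _ (mem_image_of_mem P hv))
  have hRD : ∀ v ∈ D, P v ∈ R := fun v hv => mem_union_right _ (mem_image_of_mem P hv)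
  have h1 : ∏ p ∈ R, κ p = (-1 : ℤˣ) ^ (A.card + D.card) := by
    rw [Finset.prod_congr rfl (fun p _ => key2 p), Finset.prod_mul_distrib,
      Finset.prod_fiberwise_of_maps_to hRA, Finset.prod_fiberwise_of_maps_to hRD,
      Finset.prod_const, Finset.prod_const, pow_add]
  have h2 : ∏ p ∈ R, κ p = 1 := by
    have h3 : ∏ p ∈ R, κ p = ∏ p ∈ hQfin.toFinset, κ p := by
      symm
      apply Finset.prod_subset
      · intro p hp; exact mem_union_left _ (mem_union_left _ hp)
      · intro p _ hp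
        rw [Set.Finite.mem_toFinset] at hp
        rcases Int.units_eq_one_or (κ p) with h | h
        · exact h
        · exact absurd h hp
    have h4 : ∀ p ∈ hQfin.toFinset, κ p = -1 := fun p hp => by
      rw [Set.Finite.mem_toFinset] at hp; exact hp
    rw [h3, Finset.prod_congr rfl h4, Finset.prod_const]
    exact hQev.neg_one_pow
  rw [h1] at h2
  by_contra hodd
  rw [Nat.not_even_iff_odd] at hodd
  rw [hodd.neg_one_pow] at h2
  exact absurd h2 (by decide)

end Pool.Agent.Q182.LQ
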