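import Pool.Agent.Q283.LQ.Stm
import Pool.Agent.Q51.EB.CT
import Pool.Agent.Q58.EB.Apx
import Pool.Agent.Q58.EB.Apxr

/-! # Project LQ (helper283), job REC, part 1: local squares in the algebras `ℚ_l[X]/(f)`, `ℝ[X]/(f)` -/

set_option autoImplicit false

namespace Pool.Agent.Q182.LQ

open Polynomial NumberField IsDedekindDomain Finset Pool.Agent.Q283.LQ Pool.Agent.Q51.EB Pool.Agent.Q51.EL
open Pool.Agent.Q239.EL
open scoped Topology

/-! ## The polynomial -/

/-- a number field is generated by an integer -/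
lemma setup_ex (F : Type) [Field F] [NumberField F] : ∃ (f : ℤ[X]) (θ : F), Setup f F θ := by
  obtain ⟨α, hα⟩ := Field.exists_primitive_element ℚ F
  have hint : IsAlgebraic ℤ α := (IsFractionRing.isAlgebraic_iff ℤ ℚ F).mpr (Algebra.IsAlgebraic.isAlgebraic α)
  obtain ⟨m, hm0, hm⟩ := hint.exists_integral_multiple
  have hmF : (m : F) ≠ 0 := by exact_mod_cast hm0
  set θ : F := m • α with hθ
  have hθα : θ = (m : F) * α := by rw [hθ, zsmul_eq_mul]
  have htop : IntermediateField.adjoin ℚ {θ} = ⊤ := by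
    rw [eq_top_iff, ← hα, IntermediateField.adjoin_simple_le_iff]
    have h1 : θ ∈ IntermediateField.adjoin ℚ {θ} := IntermediateField.mem_adjoin_simple_self ℚ θ
    have h2 : (m : F) ∈ IntermediateField.adjoin ℚ {θ} := by
      exact_mod_cast intCast_mem (IntermediateField.adjoin ℚ {θ}) m
    have h3 := div_mem h1 h2
    have h4 : θ / (m : F) = α := by rw [hθα, mul_div_cancel_left₀ _ hmF]
    rwa [h4] at h3
  have hmin := minpoly.isIntegrallyClosed_eq_field_fractions' ℚ hm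
  have hmin2 : (minpoly ℤ θ).map (Int.castRingHom ℚ) = minpoly ℚ θ := hmin.symm
  have hintQ : IsIntegral ℚ θ := hm.tower_top
  refine ⟨minpoly ℤ θ, θ, ⟨?_, minpoly.aeval ℤ θ, ?_⟩⟩
  · rw [hmin2]; exact minpoly.irreducible hintQ
  · have h1 := IntermediateField.adjoin.finrank hintQ
    rw [htop, IntermediateField.finrank_top'] at h1
    rw [h1, ← hmin2, natDegree_map_eq_of_injective (Int.castRingHom ℚ).injective_int]

section

variable {F : Type} [Field F] [NumberField F]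

lemma exp_small (a N : ℤ) (c : WithZero (Multiplicative ℤ)) : ∃ K : ℕ, ∀ k : ℕ, K ≤ k →
    c * WithZero.exp (a - (k : ℤ)) < WithZero.exp (-N) := by
  by_cases hc : c = 0
  · exact ⟨0, fun k _ => by rw [hc, zero_mul]; exact WithZero.exp_pos⟩
  · obtain ⟨t, ht⟩ : ∃ t : ℤ, c = WithZero.exp t := ⟨WithZero.log c, (WithZero.exp_log hc).symm⟩
    refine ⟨(t + a + N + 1).toNat, fun k hk => ?_⟩
    rw [ht, ← WithZero.exp_add, WithZero.exp_lt_exp]
    have : t + a + N + 1 ≤ ((t + a + N + 1).toNat : ℤ) := Int.self_le_toNat _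
    have h2 : ((t + a + N + 1).toNat : ℤ) ≤ k := by exact_mod_cast hk
    omega

/-- simultaneous approximation at the primes above `l` -/
lemma wk {l : ℕ} (hl : l ≠ 0) {b : F} (h : ∀ v : HeightOneSpectrum (𝓞 F), Abv v l → Lsq v b)
    (N : ℕ) : ∃ x : F, ∀ v : HeightOneSpectrum (𝓞 F), Abv v l →
      v.valuation F (b * x ^ 2 - 1) < WithZero.exp (-(N : ℤ)) := by
  classical
  set S := (ab_finite (L := F) hl).toFinset with hS
  have hSm : ∀ v, v ∈ S ↔ Abv v l := fun v => (ab_finite hl).mem_toFinset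
  have h1 : ∀ v : HeightOneSpectrum (𝓞 F), ∃ x : F, v ∈ S →
      v.valuation F (b * x ^ 2 - 1) < WithZero.exp (-(N : ℤ)) := by
    intro v
    by_cases hv : v ∈ S
    · obtain ⟨x, hx⟩ := h v ((hSm v).mp hv) N
      exact ⟨x, fun _ => hx⟩
    · exact ⟨0, fun h => absurd h hv⟩
  choose x hx using h1
  obtain ⟨d, hd⟩ := IsLocalization.exist_integer_multiples_of_finset (nonZeroDivisors (𝓞 F))
    (S.image x)
  have hd0 : ((d : 𝓞 F) : F) ≠ 0 := by
    intro h0
    exact nonZeroDivisors.ne_zero d.2 (RingOfIntegers.coe_eq_zero_iff.mp h0)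
  have h2 : ∀ v : HeightOneSpectrum (𝓞 F), ∃ a : 𝓞 F, v ∈ S → (a : F) = (d : 𝓞 F) * x v := by
    intro v
    by_cases hv : v ∈ S
    · obtain ⟨a, ha⟩ := hd (x v) (mem_image_of_mem x hv)
      refine ⟨a, fun _ => ?_⟩
      rw [Algebra.smul_def] at ha
      exact ha
    · exact ⟨0, fun h => absurd h hv⟩
  choose a ha using h2
  -- exponents
  have h3 : ∀ v : HeightOneSpectrum (𝓞 F), ∃ K : ℕ, ∀ k : ℕ, K ≤ k →
      (v.valuation F (2 * b * x v) * (v.valuation F ((d : 𝓞 F) : F))⁻¹) *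
        WithZero.exp (0 - (k : ℤ)) < WithZero.exp (-(N : ℤ)) ∧
      (v.valuation F b * (v.valuation F ((d : 𝓞 F) : F))⁻¹ ^ 2) *
        WithZero.exp (0 - (k : ℤ)) < WithZero.exp (-(N : ℤ)) := by
    intro v
    obtain ⟨K1, hK1⟩ := exp_small 0 N (v.valuation F (2 * b * x v) * (v.valuation F ((d : 𝓞 F) : F))⁻¹)
    obtain ⟨K2, hK2⟩ := exp_small 0 N (v.valuation F b * (v.valuation F ((d : 𝓞 F) : F))⁻¹ ^ 2)
    exact ⟨max K1 K2, fun k hk => ⟨hK1 k (le_trans (le_max_left _ _) hk),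
      hK2 k (le_trans (le_max_right _ _) hk)⟩⟩
  choose K hK using h3
  obtain ⟨y, hy⟩ := IsDedekindDomain.exists_forall_sub_mem_ideal (s := S)
    (fun v : HeightOneSpectrum (𝓞 F) => v.asIdeal) K (fun v _ => v.prime)
    (fun v _ w _ hvw h => hvw (HeightOneSpectrum.ext h)) (fun v => a v)
  refine ⟨(y : F) / (d : 𝓞 F), fun v hv => ?_⟩
  have hvS := (hSm v).mpr hv
  have hyv := hy v hvS
  have hval : v.valuation F ((y : F) - (a v : F)) ≤ WithZero.exp (-(K v : ℤ)) := by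
    have h4 : ((y : F) - (a v : F)) = algebraMap (𝓞 F) F (y - a v) := by rw [map_sub]
    rw [h4, HeightOneSpectrum.valuation_of_algebraMap]
    exact (v.intValuation_le_pow_iff_mem _ _).mpr hyv
  set δ : F := (y : F) / (d : 𝓞 F) - x v with hδ
  have hδv : v.valuation F δ ≤ WithZero.exp (0 - (K v : ℤ)) * (v.valuation F ((d : 𝓞 F) : F))⁻¹ := by
    have h5 : δ = ((y : F) - (a v : F)) * ((d : 𝓞 F) : F)⁻¹ := by
      rw [hδ, ha v hvS]; field_simp
    rw [h5, map_mul, map_inv₀, zero_sub]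
    exact mul_le_mul_left hval _
  have he : b * ((y : F) / (d : 𝓞 F)) ^ 2 - 1 = (b * x v ^ 2 - 1) + (b * δ ^ 2 + 2 * b * x v * δ) := by
    have : (y : F) / (d : 𝓞 F) = x v + δ := by rw [hδ]; ring
    rw [this]; ring
  rw [he]
  obtain ⟨k1, k2⟩ := hK v (K v) le_rfl
  apply Valuation.map_add_lt _ (hx v hvS)
  apply Valuation.map_add_lt
  · rw [map_mul, map_pow]
    refine lt_of_le_of_lt ?_ k2
    have h6 : v.valuation F δ ^ 2 ≤ (WithZero.exp (0 - (K v : ℤ)) * (v.valuation F ((d : 𝓞 F) : F))⁻¹) ^ 2 :=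
      pow_le_pow_left₀ zero_le hδv 2
    have h7 : (WithZero.exp (0 - (K v : ℤ)) : WithZero (Multiplicative ℤ)) ^ 2 ≤ WithZero.exp (0 - (K v : ℤ)) := by
      rw [← WithZero.exp_nsmul, WithZero.exp_le_exp]
      have : (0 : ℤ) ≤ K v := Int.natCast_nonneg _
      simp only [nsmul_eq_mul]
      push_cast
      omega
    calc v.valuation F b * v.valuation F δ ^ 2
        ≤ v.valuation F b * (WithZero.exp (0 - (K v : ℤ)) * (v.valuation F ((d : 𝓞 F) : F))⁻¹) ^ 2 := by gcongr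
      _ = (v.valuation F b * (v.valuation F ((d : 𝓞 F) : F))⁻¹ ^ 2) * WithZero.exp (0 - (K v : ℤ)) ^ 2 := by
          rw [mul_pow]; ac_rfl
      _ ≤ _ := by gcongr
  · rw [map_mul]
    refine lt_of_le_of_lt ?_ k1
    calc v.valuation F (2 * b * x v) * v.valuation F δ
        ≤ v.valuation F (2 * b * x v) * (WithZero.exp (0 - (K v : ℤ)) *
          (v.valuation F ((d : 𝓞 F) : F))⁻¹) := by gcongr
      _ = _ := by ac_rfl

/-- the valuation of `l` at `v` is not larger than `exp (-1)` -/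
lemma val_l {l : ℕ} (hl : l ≠ 0) {v : HeightOneSpectrum (𝓞 F)} (hv : Abv v l) :
    ∃ e : ℕ, v.valuation F ((l : ℕ) : F) = WithZero.exp (-(e : ℤ)) ∧ 1 ≤ e := by
  have hlO : (l : 𝓞 F) ≠ 0 := by exact_mod_cast hl
  refine ⟨mu v (Ideal.span {(l : 𝓞 F)}), ?_, ?_⟩
  · have := val_int v hlO
    rw [← this]
    congr 1
  · have : v.asIdeal ∣ Ideal.span {(l : 𝓞 F)} := by
      rw [Ideal.dvd_iff_le, Ideal.span_singleton_le_iff_mem]; exact hv
    have h1 := (mu_pos_iff (span_ne hlO)).1 this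
    omega

lemma val_l_not {l : ℕ} {v : HeightOneSpectrum (𝓞 F)} (hv : ¬ Abv v l) :
    v.valuation F ((l : ℕ) : F) = 1 := by
  have h1 : ((l : ℕ) : F) = algebraMap (𝓞 F) F (l : 𝓞 F) := by simp
  rw [h1]
  exact (HeightOneSpectrum.valuation_eq_one_iff_notMem (K := F) (v := v)).mpr hv

/-- an element which is integral above `l` becomes integral after multiplication by an integer prime
to `l` -/
lemma clear_den {l : ℕ} (hl : l.Prime) (w : F)
    (hw : ∀ v : HeightOneSpectrum (𝓞 F), Abv v l → v.valuation F w ≤ 1) :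
    ∃ (m : ℕ) (z : 𝓞 F), m ≠ 0 ∧ ¬ l ∣ m ∧ (z : F) = (m : F) * w := by
  obtain ⟨a, y, hy, hay⟩ := exists_ratio w
  have hyL := coe_ne hy
  -- the norm of `y`
  set n : ℕ := Ideal.absNorm (Ideal.span {y}) with hn
  have hn0 : n ≠ 0 := by
    rw [hn, Ne, Ideal.absNorm_eq_zero_iff]
    exact span_ne hy
  have hyn : y ∣ (n : 𝓞 F) := by
    have h1 : ((Ideal.absNorm (Ideal.span {y}) : ℕ) : 𝓞 F) ∈ Ideal.span {y} := Ideal.absNorm_mem _
    rwa [Ideal.mem_span_singleton] at h1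
  obtain ⟨t, ht⟩ := hyn
  obtain ⟨k, m, hm, hnm⟩ := Nat.exists_eq_pow_mul_and_not_dvd hn0 l hl.ne_one
  have hm0 : m ≠ 0 := by rintro rfl; exact hm (dvd_zero _)
  have hint : ∀ v : HeightOneSpectrum (𝓞 F), v.valuation F ((m : F) * w) ≤ 1 := by
    intro v
    have hm1 : v.valuation F (m : F) ≤ 1 := by
      have h1 : ((m : ℕ) : F) = algebraMap (𝓞 F) F (m : 𝓞 F) := by simp
      rw [h1]; exact v.valuation_le_one _
    by_cases hv : Abv v l
    · rw [map_mul]
      exact mul_le_one' hm1 (hw v hv)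
    · have h1 : (l : F) ^ k * ((m : F) * w) = algebraMap (𝓞 F) F (t * a) := by
        have h2 : ((n : 𝓞 F) : F) = (y : F) * (t : F) := by rw [ht]; exact map_mul _ _ _
        have h3 : ((n : 𝓞 F) : F) = (l : F) ^ k * (m : F) := by rw [hnm]; simp
        rw [map_mul]
        have h4 : (a : F) = w * (y : F) := hay.symm
        change (l : F) ^ k * ((m : F) * w) = (t : F) * (a : F)
        rw [h4, ← mul_assoc, ← h3, h2]; ring
      have h5 : v.valuation F ((l : F) ^ k * ((m : F) * w)) ≤ 1 := by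
        rw [h1]; exact v.valuation_le_one _
      rwa [map_mul, map_pow, val_l_not hv, one_pow, one_mul] at h5
  obtain ⟨z, hz⟩ := HeightOneSpectrum.mem_integers_of_valuation_le_one F _ hint
  exact ⟨m, z, hm0, hm, hz⟩

/-- an element which is a square at all primes above `l` is a square in `ℚ_l[X]/(f)` -/
lemma sq_l {f : ℤ[X]} {θ : F} (hset : Setup f F θ) (l : ℕ) [hl : Fact l.Prime] {β : ℚ[X]}
    (h : ∀ v : HeightOneSpectrum (𝓞 F), Abv v l → Lsq v (aeval θ β)) :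
    ∃ c : ℚ_[l][X], IsCoprime (up f ℚ_[l]) c ∧ up f ℚ_[l] ∣ β.map (Rat.castHom ℚ_[l]) - c ^ 2 := by
  classical
  set P := up f ℚ_[l] with hP
  have hsep : P.Separable := Pool.Agent.Q58.EB.sep_up hset.irr ℚ_[l]
  have hP0 : P ≠ 0 := hsep.ne_zero
  have hdeg : 0 < P.natDegree := Pool.Agent.Q58.EB.deg_up hset.irr ℚ_[l]
  have hfin : Module.Finite ℚ_[l] (AdjoinRoot P) := (AdjoinRoot.powerBasis hP0).finite
  have hnt : Nontrivial (AdjoinRoot P) := by
    apply AdjoinRoot.nontrivial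
    intro h0
    rw [natDegree_eq_zero_iff_degree_le_zero.2 h0.le] at hdeg
    exact lt_irrefl _ hdeg
  set B := Module.finBasis ℤ (𝓞 F) with hB
  choose W hW using fun i => surj_up hset ((B i : 𝓞 F) : F)
  set φ : (Fin (Module.finrank ℤ (𝓞 F)) → ℚ_[l]) →ₗ[ℚ_[l]] AdjoinRoot P :=
    Fintype.linearCombination ℚ_[l] (fun i => AdjoinRoot.mk P ((W i).map (Rat.castHom ℚ_[l]))) with hφ
  have hφq : ∀ (q : Fin (Module.finrank ℤ (𝓞 F)) → ℚ) (g : ℚ[X]),
      aeval θ g = ∑ i, ((q i : ℚ) : F) * ((B i : 𝓞 F) : F) →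
      φ (fun i => ((q i : ℚ) : ℚ_[l])) = AdjoinRoot.mk P (g.map (Rat.castHom ℚ_[l])) := by
    intro q g hg
    have h1 : up f ℚ ∣ ∑ i, C (q i) * W i - g := by
      rw [dvd_up hset, map_sub, map_sum, hg, sub_eq_zero]
      apply Finset.sum_congr rfl
      intro i _
      rw [map_mul, hW i, aeval_C]
      rfl
    have h2 := dvd_map (F := ℚ_[l]) h1
    rw [← AdjoinRoot.mk_eq_zero, Polynomial.map_sub, map_sub, sub_eq_zero] at h2
    rw [← h2, hφ, Fintype.linearCombination_apply, Polynomial.map_sum, map_sum]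
    apply Finset.sum_congr rfl
    intro i _
    rw [Polynomial.map_mul, map_mul, Polynomial.map_C, Algebra.smul_def]
    rfl
  have hrepr : ∀ z : 𝓞 F, (z : F) = ∑ i, ((((B.repr z i : ℤ) : ℚ)) : F) * ((B i : 𝓞 F) : F) := by
    intro z
    have h1 := congrArg (algebraMap (𝓞 F) F) (B.sum_repr z)
    rw [map_sum] at h1
    change (algebraMap (𝓞 F) F z) = _
    rw [← h1]
    apply Finset.sum_congr rfl
    intro i _
    rw [zsmul_eq_mul, map_mul]
    simp
  have hone : φ (fun i => (((B.repr 1 i : ℤ) : ℚ) : ℚ_[l])) = 1 := by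
    rw [hφq (fun i => ((B.repr 1 i : ℤ) : ℚ)) 1]
    · simp
    · rw [map_one]
      have := hrepr 1
      rw [← this]
      exact (map_one (algebraMap (𝓞 F) F)).symm
  have hnear := Pool.Agent.Q58.EB.near (p := l) (AdjoinRoot P) φ _ hone
  obtain ⟨δ, hδ, hball⟩ := Metric.eventually_nhds_iff.1 hnear
  have hl1 : (1 : ℝ) < l := by exact_mod_cast hl.out.one_lt
  obtain ⟨M, hM⟩ := exists_pow_lt_of_lt_one hδ (inv_lt_one_of_one_lt₀ hl1)
  -- ramification
  have hex : ∀ v : HeightOneSpectrum (𝓞 F), ∃ e : ℕ, Abv v l →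
      v.valuation F ((l : ℕ) : F) = WithZero.exp (-(e : ℤ)) := by
    intro v
    by_cases hv : Abv v l
    · obtain ⟨e, he, -⟩ := val_l hl.out.ne_zero hv
      exact ⟨e, fun _ => he⟩
    · exact ⟨0, fun h => absurd h hv⟩
  choose e he using hex
  set S := (ab_finite (L := F) hl.out.ne_zero).toFinset with hS
  have hSm : ∀ v, v ∈ S ↔ Abv v l := fun v => (ab_finite hl.out.ne_zero).mem_toFinset
  set E : ℕ := ∑ v ∈ S, e v with hE
  obtain ⟨x, hx⟩ := wk hl.out.ne_zero h (M * E)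
  have hlF : ((l : ℕ) : F) ≠ 0 := by exact_mod_cast hl.out.ne_zero
  set w : F := (aeval θ β * x ^ 2 - 1) / (l : F) ^ M with hw
  have hwv : ∀ v : HeightOneSpectrum (𝓞 F), Abv v l → v.valuation F w ≤ 1 := by
    intro v hv
    have h1 := (hx v hv).le
    have h2 : e v ≤ E := Finset.single_le_sum (f := fun v => e v) (fun _ _ => Nat.zero_le _)
      ((hSm v).mpr hv)
    rw [hw, map_div₀, map_pow, he v hv, ← WithZero.exp_nsmul]
    rw [div_le_iff₀ WithZero.exp_pos, one_mul]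
    refine h1.trans ?_
    rw [WithZero.exp_le_exp]
    have h3 : M * e v ≤ M * E := Nat.mul_le_mul_left M h2
    have h4 : ((M * e v : ℕ) : ℤ) ≤ ((M * E : ℕ) : ℤ) := by exact_mod_cast h3
    simp only [nsmul_eq_mul]
    push_cast at h4 ⊢
    linarith
  obtain ⟨m, z, hm0, hlm, hz⟩ := clear_den hl.out w hwv
  have hmF : (m : F) ≠ 0 := by exact_mod_cast hm0
  set q : Fin (Module.finrank ℤ (𝓞 F)) → ℚ := fun i =>
    ((B.repr 1 i : ℤ) : ℚ) + (l : ℚ) ^ M * ((B.repr z i : ℤ) : ℚ) / (m : ℚ) with hq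
  obtain ⟨X', hX'⟩ := surj_up hset x
  have hval : aeval θ (β * X' ^ 2) = ∑ i, ((q i : ℚ) : F) * ((B i : 𝓞 F) : F) := by
    have h1 : aeval θ (β * X' ^ 2) = 1 + (l : F) ^ M * (z : F) / (m : F) := by
      rw [map_mul, map_pow, hX', hz, hw]
      field_simp
      ring
    have h2 : ((1 : 𝓞 F) : F) = 1 := map_one (algebraMap (𝓞 F) F)
    rw [h1, ← h2, hrepr 1, hrepr z, Finset.mul_sum, Finset.sum_div, ← Finset.sum_add_distrib]
    apply Finset.sum_congr rfl
    intro i _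
    rw [hq]
    push_cast
    ring
  have hq1 := hφq q _ hval
  obtain ⟨c, hc, hcq⟩ := hball (y := fun i => ((q i : ℚ) : ℚ_[l])) (by
    rw [dist_pi_lt_iff hδ]
    intro i
    rw [dist_eq_norm, hq]
    have h1 : (((((B.repr 1 i : ℤ) : ℚ) + (l : ℚ) ^ M * ((B.repr z i : ℤ) : ℚ) / (m : ℚ) : ℚ)) : ℚ_[l]) -
        (((B.repr 1 i : ℤ) : ℚ) : ℚ_[l]) = (l : ℚ_[l]) ^ M * ((B.repr z i : ℤ) : ℚ_[l]) / ((m : ℤ) : ℚ_[l]) := by
      push_cast; ring
    rw [h1, norm_div, norm_mul, norm_pow, Padic.norm_p]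
    have h2 : ‖((m : ℤ) : ℚ_[l])‖ = 1 := by
      rw [Padic.norm_intCast_eq_one_iff]
      rw [Int.isCoprime_iff_gcd_eq_one]
      rw [Int.gcd_natCast_natCast]
      exact ((Nat.Prime.coprime_iff_not_dvd hl.out).mpr hlm).symm
    rw [h2, div_one]
    have h3 := Padic.norm_int_le_one (p := l) (B.repr z i)
    calc ((l : ℝ)⁻¹) ^ M * ‖((B.repr z i : ℤ) : ℚ_[l])‖ ≤ ((l : ℝ)⁻¹) ^ M * 1 := by gcongr
      _ < δ := by rw [mul_one]; exact hM)
  rw [hq1, Polynomial.map_mul, Polynomial.map_pow, map_mul, map_pow] at hcq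
  have hu : IsUnit (AdjoinRoot.mk P (X'.map (Rat.castHom ℚ_[l]))) := by
    have h1 : IsUnit (AdjoinRoot.mk P (β.map (Rat.castHom ℚ_[l])) *
        AdjoinRoot.mk P (X'.map (Rat.castHom ℚ_[l])) ^ 2) := by rw [hcq]; exact hc.pow 2
    have h2 := isUnit_of_mul_isUnit_right h1
    exact (isUnit_pow_iff two_ne_zero).mp h2
  obtain ⟨y, hy⟩ := hu.exists_right_inv
  obtain ⟨d, hd⟩ := AdjoinRoot.mk_surjective (c * y)
  refine ⟨d, ?_, ?_⟩
  · rw [Pool.Agent.Q58.EB.copr_unit, hd]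
    exact hc.mul (isUnit_iff_exists_inv'.2 ⟨_, hy⟩)
  · rw [← AdjoinRoot.mk_eq_mk, map_pow, hd, mul_pow, ← hcq]
    linear_combination (-(AdjoinRoot.mk P (β.map (Rat.castHom ℚ_[l])))) *
      (AdjoinRoot.mk P (X'.map (Rat.castHom ℚ_[l])) * y + 1) * hy

/-- an element which is positive at the real places is a square in `ℝ[X]/(f)` -/
lemma sq_r {f : ℤ[X]} {θ : F} (hset : Setup f F θ) {β : ℚ[X]} (hβ : aeval θ β ≠ 0)
    (h : ∀ φ : F →+* ℝ, 0 < φ (aeval θ β)) :
    ∃ c : ℝ[X], IsCoprime (up f ℝ) c ∧ up f ℝ ∣ β.map (Rat.castHom ℝ) - c ^ 2 := by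
  set P := up f ℝ with hP
  have hsep : P.Separable := Pool.Agent.Q58.EB.sep_up hset.irr ℝ
  have hcop : IsCoprime P (β.map (Rat.castHom ℝ)) := cop_map ((zero_up hset β).mpr hβ)
  obtain ⟨c, hc⟩ := Pool.Agent.Q58.EB.sq_sqfree _ P rfl hsep.squarefree (β.map (Rat.castHom ℝ)) (by
    intro r hr
    have hroot : eval₂ (algebraMap ℚ ℝ) r (up f ℚ) = 0 := by
      rw [IsRoot, hP, eval_map] at hr
      rw [up, eval₂_map]
      rw [← hr]
      congr 1
    have : Fact (Irreducible (up f ℚ)) := ⟨hset.irr⟩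
    let ψ : AdjoinRoot (up f ℚ) →+* ℝ := AdjoinRoot.lift (algebraMap ℚ ℝ) r hroot
    let e := AlgEquiv.ofBijective (phi hset) (phi_bij hset)
    have h1 := h (ψ.comp (e.symm : F →+* AdjoinRoot (up f ℚ)))
    have h2 : e.symm (aeval θ β) = AdjoinRoot.mk (up f ℚ) β := by
      rw [AlgEquiv.symm_apply_eq]
      exact (phi_mk hset β).symm
    have h3 : (ψ.comp (e.symm : F →+* AdjoinRoot (up f ℚ))) (aeval θ β) = (β.map (Rat.castHom ℝ)).eval r := by
      change ψ (e.symm (aeval θ β)) = _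
      rw [h2]
      change AdjoinRoot.lift (algebraMap ℚ ℝ) r hroot (AdjoinRoot.mk (up f ℚ) β) = _
      rw [AdjoinRoot.lift_mk, eval_map]
      congr 1
    rw [← h3]
    exact h1)
  refine ⟨c, ?_, hc⟩
  obtain ⟨k, hk⟩ := hc
  have h2 : c ^ 2 = β.map (Rat.castHom ℝ) + P * (-k) := by
    have : β.map (Rat.castHom ℝ) = c ^ 2 + P * k := by rw [← hk]; ring
    rw [this]
    ring
  have h3 : IsCoprime P (c ^ 2) := by
    rw [h2]
    exact IsCoprime.add_mul_left_right hcop _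
  exact (IsCoprime.pow_right_iff (by norm_num)).1 h3

end

/-- the symbol of a square is trivial -/
lemma cor_sq (hcorp : S_CORP) {K : Type} [Field K] [Infinite K] (hK : Hil K) {P a b d : K[X]}
    (hsep : P.Separable) (hdeg : 1 ≤ P.natDegree) (hb : IsCoprime P b) (hd : IsCoprime P d)
    (h : P ∣ a - d ^ 2) : cor P a b = 1 := by
  obtain ⟨h1, h2, -, h4⟩ := hcorp K hK P hsep hdeg
  rw [h1 a (1 * d ^ 2) b (b * 1 ^ 2) (by rwa [one_mul]) (by simp)]
  rw [h2 1 b d 1 isCoprime_one_right hb hd isCoprime_one_right]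
  exact h4 b hb

end Pool.Agent.Q182.LQ
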