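import Pool.Agent.Q182.LQ.Rec1
import Pool.Agent.Q247.EB.BIL
import Pool.Agent.Q247.EB.BC
import Pool.Agent.Q247.EB.PFC
import Pool.Agent.Q247.EB.NRM
import Pool.Agent.Q187.EB.Wd2
import Pool.Agent.Q187.EB.Hwp
import Pool.Agent.Q187.EB.Gram
import Pool.Agent.Q187.EB.Corp
import Pool.Agent.Q187.EB.Jc3
import Pool.Agent.Q187.EB.Tr2

/-! # Project LQ (helper283), job REC, part 2: the tame symbols -/

set_option autoImplicit false

namespace Pool.Agent.Q182.LQ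

open Polynomial NumberField IsDedekindDomain Finset Pool.Agent.Q283.LQ Pool.Agent.Q51.EB Pool.Agent.Q51.EL
open Pool.Agent.Q239.EL
open Pool.Agent.Q187.EB (hs_comm hs_pow hs_units hs_sq_left hs_sq_right hs_mul_left hs_one_right hs_one_left)

theorem t_hwp : S_HWP := Pool.Agent.Q187.EB.hwp Pool.Agent.Q187.EB.wd Pool.Agent.Q187.EB.diag
theorem t_corp : S_CORP := Pool.Agent.Q187.EB.corp t_hwp Pool.Agent.Q187.EB.gram_
theorem t_pfc : S_PFC := Pool.Agent.Q247.EB.pfc Pool.Agent.Q247.EB.bil t_hwp Pool.Agent.Q187.EB.diag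
  Pool.Agent.Q187.EB.gram_ Pool.Agent.Q247.EB.bc
theorem t_jc : S_JC := Pool.Agent.Q187.EB.jc t_hwp Pool.Agent.Q247.EB.bil
theorem t_tr : S_TR := Pool.Agent.Q187.EB.tr t_jc Pool.Agent.Q187.EB.gram_ Pool.Agent.Q247.EB.bc

lemma even_rep {l : ℕ} [hl : Fact l.Prime] (x : ℚ_[l]) (hx : x ≠ 0) (h : Even x.valuation) :
    ∃ (u : ℤ_[l]) (c : ℚ_[l]), IsUnit u ∧ c ≠ 0 ∧ x = (u : ℚ_[l]) * c ^ 2 := by
  obtain ⟨k, hk⟩ := h
  have hl0 : (l : ℚ_[l]) ≠ 0 := by exact_mod_cast hl.out.ne_zero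
  have hlR : (l : ℝ) ≠ 0 := by exact_mod_cast hl.out.ne_zero
  have hn : ‖x * ((l : ℚ_[l]) ^ (-k)) ^ 2‖ = 1 := by
    rw [norm_mul, norm_pow, norm_zpow, Padic.norm_p, Padic.norm_eq_zpow_neg_valuation hx, hk,
      inv_zpow, inv_pow, ← zpow_natCast, ← zpow_mul, ← zpow_neg, ← zpow_add₀ hlR]
    have : -(k + k) + -(-k * ((2 : ℕ) : ℤ)) = 0 := by push_cast; ring
    rw [this, zpow_zero]
  obtain ⟨z, hz⟩ : ∃ z : ℤ_[l], (z : ℚ_[l]) = x * ((l : ℚ_[l]) ^ (-k)) ^ 2 := ⟨⟨_, hn.le⟩, rfl⟩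
  have hu : IsUnit z := PadicInt.isUnit_iff.mpr (by rw [← hn, ← hz]; rfl)
  refine ⟨z, (l : ℚ_[l]) ^ k, hu, zpow_ne_zero _ hl0, ?_⟩
  · rw [hz]
    rw [mul_assoc, ← mul_pow, ← zpow_add₀ hl0, neg_add_cancel, zpow_zero, one_pow, mul_one]

lemma hs_even {l : ℕ} [hl : Fact l.Prime] (hl2 : l ≠ 2) {x y : ℚ_[l]} (hx : x ≠ 0) (hy : y ≠ 0)
    (h : Even x.valuation) (h' : Even y.valuation) : hs x y = 1 := by
  obtain ⟨u, c, hu, hc, e⟩ := even_rep x hx h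
  obtain ⟨w, d, hw, hd, e'⟩ := even_rep y hy h'
  rw [e, e', hs_sq_left _ _ _ hc, hs_sq_right _ _ _ hd]
  exact hs_units hl2 u w hu hw

section

variable {F : Type} [Field F] [NumberField F]

/-- the parity of the valuation of the norm -/
lemma norm_par {l : ℕ} [hl : Fact l.Prime] {x : F} (hx : x ≠ 0)
    (T : Finset (HeightOneSpectrum (𝓞 F))) (hT : ∀ v ∈ T, Abv v l)
    (h1 : ∀ v : HeightOneSpectrum (𝓞 F), Abv v l → (v ∈ T → Par v x 1) ∧ (v ∉ T → Par v x 0)) :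
    Even (padicValRat l (Algebra.norm ℚ x) - ((∑ v ∈ T, ph l v.asIdeal : ℕ) : ℤ)) := by
  classical
  obtain ⟨z, y, hz, hy, hzy, hev⟩ := norm_val (l := l) hx
  have hform := ph_formula (l := l) (Ideal.span {z}) (span_ne hz)
  set V := (ab_finite (L := F) hl.out.ne_zero).toFinset with hV
  have hVm : ∀ v, v ∈ V ↔ Abv v l := fun v => (ab_finite hl.out.ne_zero).mem_toFinset
  have hTV : T = V.filter (fun v => v ∈ T) := by
    ext v
    simp only [mem_filter]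
    exact ⟨fun h => ⟨(hVm v).mpr (hT v h), h⟩, fun h => h.2⟩
  have h2 : Even (((ph l (Ideal.span {z}) : ℕ) : ℤ) - ((∑ v ∈ T, ph l v.asIdeal : ℕ) : ℤ)) := by
    rw [hform, hTV, Finset.sum_filter]
    push_cast
    rw [← Finset.sum_sub_distrib]
    apply Finset.even_sum
    intro v hv
    obtain ⟨ha, hb⟩ := h1 v ((hVm v).mp hv)
    by_cases hvT : v ∈ T
    · rw [if_pos hvT]
      have h3 := par_mul_sq hy (ha hvT)
      rw [← hzy] at h3
      have h4 := par_int hz h3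
      have h5 : ((mu v (Ideal.span {z}) : ℤ) * (ph l v.asIdeal : ℤ) - (ph l v.asIdeal : ℤ)) =
          ((mu v (Ideal.span {z}) : ℤ) + 1) * (ph l v.asIdeal : ℤ) - 2 * (ph l v.asIdeal : ℤ) := by ring
      rw [h5]
      exact (h4.mul_right _).sub (even_two_mul _)
    · rw [if_neg hvT]
      have h3 := par_mul_sq hy (hb hvT)
      rw [← hzy] at h3
      have h4 := par_int hz h3
      rw [add_zero] at h4
      rw [sub_zero]
      exact h4.mul_right _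
  have := hev.add h2
  simpa using this

/-- the tame formula for the corestriction -/
lemma tame {f : ℤ[X]} {θ : F} (hset : Setup f F θ) (l : ℕ) [hl : Fact l.Prime] (hl2 : l ≠ 2)
    (htr : ∀ (b g : ℚ[X]) (m : ℕ)
      (T : Finset (HeightOneSpectrum (𝓞 F))), (∀ v ∈ T, Abv v l) →
      (∀ v : HeightOneSpectrum (𝓞 F), Abv v l →
        (v ∈ T → v.valuation F (aeval θ b) = WithZero.exp (-1 : ℤ)) ∧
        (v ∉ T → v.valuation F (aeval θ b) = 1) ∧ v.valuation F (aeval θ g) = 1) →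
      ∏ v ∈ T, Ideal.absNorm v.asIdeal = l ^ m →
      hw (gram (up f ℚ_[l]) ((b * g).map (Rat.castHom ℚ_[l]))) *
        hw (gram (up f ℚ_[l]) (b.map (Rat.castHom ℚ_[l]))) =
      (hs (((Algebra.norm ℚ (aeval θ g) : ℚ) : ℚ_[l])) (l : ℚ_[l])) ^ m *
        ∏ v ∈ T, sg v (aeval θ g))
    (β γ : ℚ[X]) (hβ : aeval θ β ≠ 0) (hγ0 : aeval θ γ ≠ 0)
    (hγ : ∀ v : HeightOneSpectrum (𝓞 F), Abv v l → v.valuation F (aeval θ γ) = 1)
    (T : Finset (HeightOneSpectrum (𝓞 F)))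
    (hT : ∀ v, v ∈ T ↔ Abv v l ∧ Par v (aeval θ β) 1) :
    cor (up f ℚ_[l]) (β.map (Rat.castHom ℚ_[l])) (γ.map (Rat.castHom ℚ_[l])) =
      ∏ v ∈ T, sg v (aeval θ γ) := by
  classical
  have hn : 1 ≤ f.natDegree := by
    have h1 := hset.deg
    have h2 : 0 < Module.finrank ℚ F := Module.finrank_pos
    omega
  have hTA : ∀ v ∈ T, Abv v l := fun v hv => ((hT v).mp hv).1
  have hT' : ∀ v : HeightOneSpectrum (𝓞 F), Abv v l → (v ∈ T → Par v (aeval θ β) 1) ∧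
      (v ∉ T → Par v (aeval θ β) 0) := by
    intro v hv
    refine ⟨fun h => ((hT v).mp h).2, fun h => ?_⟩
    rcases par_total v hβ with h1 | h1
    · exact h1
    · exact absurd ((hT v).mpr ⟨hv, h1⟩) h
  have hprod : ∏ v ∈ T, Ideal.absNorm v.asIdeal = l ^ ∑ v ∈ T, ph l v.asIdeal := by
    rw [← Finset.prod_pow_eq_pow_sum]
    exact Finset.prod_congr rfl (fun v hv => absN_pow (hTA v hv))
  have s1 := step2 t_hwp Pool.Agent.Q187.EB.gram_ Pool.Agent.Q247.EB.bc Pool.Agent.Q247.EB.bil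
    Pool.Agent.Q247.EB.nrm hset hn l htr β γ hβ hγ hγ0 T hTA hT' _ hprod
  have s2 := step2 t_hwp Pool.Agent.Q187.EB.gram_ Pool.Agent.Q247.EB.bc Pool.Agent.Q247.EB.bil
    Pool.Agent.Q247.EB.nrm hset hn l htr 1 γ (by rw [map_one]; exact one_ne_zero) hγ hγ0 ∅
    (fun v hv => absurd hv (Finset.notMem_empty v)) (by
      intro v _
      refine ⟨fun h => absurd h (Finset.notMem_empty v), fun _ => ⟨0, ?_⟩⟩
      rw [map_one, map_one]; simp) 0 (by simp)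
  rw [one_mul, pow_zero, Finset.prod_empty, mul_one, Polynomial.map_one] at s2
  -- the norms
  set Nb : ℚ := Algebra.norm ℚ (aeval θ β) with hNb
  set Nc : ℚ := Algebra.norm ℚ (aeval θ γ) with hNc
  have hb0 : Nb ≠ 0 := Algebra.norm_ne_zero_iff.mpr hβ
  have hc0 : Nc ≠ 0 := Algebra.norm_ne_zero_iff.mpr hγ0
  have eb : Algebra.norm ℚ_[l] (AdjoinRoot.mk (up f ℚ_[l]) (β.map (Rat.castHom ℚ_[l]))) = (Nb : ℚ_[l]) := by
    rw [(Pool.Agent.Q247.EB.bc f hset.irr ℚ_[l] β).1, hNb, norm_up hset]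
  have ec : Algebra.norm ℚ_[l] (AdjoinRoot.mk (up f ℚ_[l]) (γ.map (Rat.castHom ℚ_[l]))) = (Nc : ℚ_[l]) := by
    rw [(Pool.Agent.Q247.EB.bc f hset.irr ℚ_[l] γ).1, hNc, norm_up hset]
  have pb := norm_par (l := l) hβ T hTA hT'
  have pc := norm_par (l := l) hγ0 ∅ (fun v hv => absurd hv (Finset.notMem_empty v)) (by
      intro v hv
      refine ⟨fun h => absurd h (Finset.notMem_empty v), fun _ => ⟨0, ?_⟩⟩
      rw [hγ v hv]; simp)
  rw [Finset.sum_empty, Nat.cast_zero, sub_zero] at pc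
  set m : ℕ := ∑ v ∈ T, ph l v.asIdeal with hm
  have hF := Pool.Agent.Q247.EB.bil.2 l
  have hbl : (Nb : ℚ_[l]) ≠ 0 := by exact_mod_cast hb0
  have hcl : (Nc : ℚ_[l]) ≠ 0 := by exact_mod_cast hc0
  have hll : (l : ℚ_[l]) ≠ 0 := by exact_mod_cast hl.out.ne_zero
  have hsym : hs (Nb : ℚ_[l]) (Nc : ℚ_[l]) = hs (Nc : ℚ_[l]) (l : ℚ_[l]) ^ m := by
    have h1 : (Nb : ℚ_[l]) = (l : ℚ_[l]) ^ m * ((Nb : ℚ_[l]) / (l : ℚ_[l]) ^ m) := by
      field_simp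
    have h2 : (Nb : ℚ_[l]) / (l : ℚ_[l]) ^ m ≠ 0 := div_ne_zero hbl (pow_ne_zero _ hll)
    rw [h1, hs_mul_left hF _ _ _ (pow_ne_zero _ hll) h2 hcl, hs_comm ((l : ℚ_[l]) ^ m),
      hs_pow hF _ _ hcl hll, hs_even hl2 h2 hcl, mul_one]
    · have h3 : (Nb : ℚ_[l]) / (l : ℚ_[l]) ^ m = (((Nb / (l : ℚ) ^ m : ℚ)) : ℚ_[l]) := by push_cast; ring
      rw [h3, Padic.valuation_ratCast, padicValRat.div hb0 (pow_ne_zero _ (by exact_mod_cast hl.out.ne_zero)),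
        padicValRat.pow, padicValRat.self hl.out.one_lt, mul_one]
      exact pb
    · rw [Padic.valuation_ratCast]
      exact pc
  unfold cor
  rw [eb, ec, hsym, ← Polynomial.map_mul]
  set a1 := hw (gram (up f ℚ_[l]) ((β * γ).map (Rat.castHom ℚ_[l])))
  set a2 := hw (gram (up f ℚ_[l]) (β.map (Rat.castHom ℚ_[l])))
  set a3 := hw (gram (up f ℚ_[l]) (γ.map (Rat.castHom ℚ_[l])))
  set a4 := hw (gram (up f ℚ_[l]) 1)
  have e5 : a1 * a2 * a3 * a4 * hs (Nc : ℚ_[l]) (l : ℚ_[l]) ^ m =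
      (a1 * a2) * (a3 * a4) * hs (Nc : ℚ_[l]) (l : ℚ_[l]) ^ m := by ac_rfl
  rw [e5, s1, s2, mul_one]
  have e6 : ∀ h x : ℤˣ, h * x * h = x := by
    intro h x
    rw [mul_comm h x, mul_assoc, Int.units_mul_self, mul_one]
  exact e6 _ _

end

end Pool.Agent.Q182.LQ
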